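import Mathlib
import Pool.Agent.H5.Amp

namespace Pool.Agent.Results.MP_229e70_co.Polygon

open Finset Pool.Agent.H5.Amp SimpleGraph

def fw : List Sp :=
  [(⟨323, 0⟩, ⟨36, 0⟩), (⟨315, 0⟩, ⟨80, 0⟩), (⟨300, 0⟩, ⟨125, 0⟩),
   (⟨280, 0⟩, ⟨165, 0⟩), (⟨253, 0⟩, ⟨204, 0⟩), (⟨204, 0⟩, ⟨253, 0⟩),
   (⟨165, 0⟩, ⟨280, 0⟩), (⟨125, 0⟩, ⟨300, 0⟩), (⟨80, 0⟩, ⟨315, 0⟩),
   (⟨0, 0⟩, ⟨325, 0⟩), (⟨-80, 0⟩, ⟨315, 0⟩), (⟨-125, 0⟩, ⟨300, 0⟩),
   (⟨-165, 0⟩, ⟨280, 0⟩), (⟨-204, 0⟩, ⟨253, 0⟩), (⟨-253, 0⟩, ⟨204, 0⟩),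
   (⟨-280, 0⟩, ⟨165, 0⟩), (⟨-300, 0⟩, ⟨125, 0⟩), (⟨-315, 0⟩, ⟨80, 0⟩),
   (⟨-323, 0⟩, ⟨36, 0⟩)]

def xs : List (ℤ × ℤ × ℤ) :=
  [(0, 0, 0), (2456415000, 0, 10882860625),
   (7779915000, 0, 20687501250), (15701790000, 0, 28543360625),
   (25461540000, 0, 33948720000), (36364575000, 0, 36313980625),
   (47267610000, 0, 33948720000), (57027360000, 0, 28543360625),
   (64949235000, 0, 20687501250), (70272735000, 0, 10882860625),
   (70272735000, 0, -10882860625), (64949235000, 0, -20687501250),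
   (57027360000, 0, -28543360625), (47267610000, 0, -33948720000),
   (36364575000, 0, -36313980625), (25461540000, 0, -33948720000),
   (15701790000, 0, -28543360625), (7779915000, 0, -20687501250),
   (2456415000, 0, -10882860625)]

def X (i : Fin 19) : Fin 3 → ℤ := fun k =>
  if k = 0 then (xs.getD i (0, 0, 0)).1 else if k = 1 then (xs.getD i (0, 0, 0)).2.1
  else (xs.getD i (0, 0, 0)).2.2

def P (i j : Fin 19) : Sp :=
  if i + 1 = j then fw.getD i (0, 0)
  else (-star (fw.getD j (0, 0)).2, star (fw.getD j (0, 0)).1)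

def oth (i j : Fin 19) : Fin 19 := i + i - j

def len (i j : Fin 19) : ℤ := if i.val + j.val = 19 ∧ (i = 9 ∨ j = 9) then 206066 else 105625

def T (i : Fin 19) (p q : Bool) : GaussianInt :=
  om (P i (if p then oth i (i + 1) else i + 1)) (P (i + 1) (if q then oth (i + 1) i else i))

lemma val : chain 18 (fun i => T i.castSucc) 1 0 (T 18 false false) (T 18 true false) +
    chain 18 (fun i => T i.castSucc) 0 1 (T 18 false true) (T 18 true true) =
    ⟨249920081191914276583522177615856278524942456508095642046499811597004532814025878906250000000000, 0⟩ := by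
  decide +kernel

theorem result : ∃ (n : ℕ) (G : SimpleGraph (Fin n)) (x : Fin n → EuclideanSpace ℝ (Fin 3))
    (ψ : G.Dart → Fin 2 → ℂ) (Δ : Finset G.Dart),
    Admissible G x ∧ IsLift G x ψ ∧ IsOrientation G Δ ∧ ‖amp G ψ Δ‖ < 1 := by
  classical
  have hg : ∀ i j, (cycleGraph 19).Adj i j →
      Good 325 (P i j) (len i j) (fun k => X j k - X i k) := by
    decide +kernel
  have hab : ∀ i : Fin 19, (cycleGraph 19).Adj i (i + 1) := by decide +kernel
  have hinj : ∀ i i' : Fin 19, i = i' → i + 1 = i' + 1 → i = i' := fun _ _ h _ => h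
  refine ⟨19, cycleGraph 19, fun i => pt (X i), fun d => sp 325 (P d.fst d.snd),
    univ.map (emb _ (fun i => i) (fun i => i + 1) hab hinj),
    fun i j h => (good_lift 325 (by norm_num) _ _ _ _ (hg i j h)).1,
    fun d => (good_lift 325 (by norm_num) _ _ _ _ (hg _ _ d.adj)).2,
    emb_orient _ _ _ hab hinj (by decide +kernel), ?_⟩
  rw [amp_eq (cycleGraph 19) oth (by decide +kernel) (by decide +kernel) (by decide +kernel)
    (fun _ => True) (by decide +kernel) (by decide +kernel) 325 (by norm_num) P _ _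
    hab hinj (by decide +kernel)]
  have key := val
  rw [← sum_chain, ← sum_chain, ← sum_add_distrib] at key
  rw [sum_filter]
  refine lt_of_eq_of_lt (congrArg (fun z : GaussianInt => ‖(z : ℂ) * _‖)
    (Eq.trans ?_ key)) ?_
  · refine sum_congr (Finset.ext fun _ => ⟨fun _ => mem_univ _, fun _ => @mem_univ _ (_) _⟩)
      fun s _ => ?_
    have e : ∀ i : Fin 18, i.castSucc + 1 = i.succ := by decide +kernel
    have e2 : (∏ i : Fin 19, T i (s i) (s (i + 1))) =
        (∏ i : Fin 18, T i.castSucc (s i.castSucc) (s i.succ)) * T 18 (s 18) (s 0) := by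
      rw [Fin.prod_univ_castSucc]
      simp only [e]
      rfl
    rw [if_pos (by simp), show Fin.last 18 = (18 : Fin 19) from rfl]
    refine Eq.trans e2 ?_
    cases s 0 <;> cases s 18 <;> simp
  · rw [GaussianInt.toComplex_def', norm_mul, norm_pow, norm_inv, norm_pow, Complex.norm_natCast]
    simp only [Int.cast_zero, zero_mul, add_zero, Complex.norm_intCast]
    norm_num [abs_of_pos]

end Pool.Agent.Results.MP_229e70_co.Polygon
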